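import Pool.Agent.H47.ST.Targets

set_option autoImplicit false

namespace Pool.Agent.H64.STK

open Finset Pool.Agent.H47.ST

theorem lam_nonneg (R m0 : ℕ) (W U : ℝ) (hW : 1 < W) (hU : 1 < U) : 0 ≤ lam R m0 W U := by
  have h1 : 0 < W - 1 := by linarith
  have h2 : 0 < U - 1 := by linarith
  have h3 : 0 ≤ Real.exp 1 - 1 := by
    have := Real.add_one_le_exp (1 : ℝ)
    linarith
  have h4 : 0 < W := by linarith
  have h5 : 0 < U := by linarith
  unfold lam KK
  positivity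

theorem pf_UP (h1 : T_TCK) (h2 : T_NNB) (h3 : T_POT) : T_UP := by
  intro R n m m0 W U hR hm0 hm hn hW hU
  have hD : (1 : ℝ) ≤ ((m0 + 1) * m : ℝ) := by
    have e1 : (1 : ℝ) ≤ (m0 : ℝ) + 1 := by
      have := Nat.cast_nonneg (α := ℝ) m0
      linarith
    have e2 : (1 : ℝ) ≤ (m : ℝ) := by exact_mod_cast hm
    nlinarith
  have hP := h3 R m0 m W U ((m0 + 1) * m : ℝ) hR hW hU le_rfl hD
  have hN := h2 R m0 m n W U ((m0 + 1) * m : ℝ) _ hR hW.le hU.le hD
    (lam_nonneg R m0 W U hW hU) hP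
  have hC : (cnt T n R : ℝ) ≤ (NN R m0 n (List.replicate m []) : ℝ) := by
    exact_mod_cast h1 R n m m0 hm0 hn
  exact hC.trans hN

end Pool.Agent.H64.STK
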